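import Pool.Agent.H482R3.EB.Stm

/-!
Task VBD of `h482e_tasks`: bounds on the V side.
-/

set_option autoImplicit false

namespace Pool.Agent.H231R2.EB

open Pool.Agent.H482R3 Pool.Agent.H482R3.EB
open Pool.Agent.H482R3.EA (W inv ev)

lemma vbd_abs_tot {S : Type} (u : W S) : |tot u| ≤ (u.length : ℤ) := by
  unfold tot
  induction u with
  | nil => simp
  | cons a u ih =>
    rw [List.map_cons, List.sum_cons, List.length_cons]
    have h1 : |(if a.2 then (1 : ℤ) else -1)| = 1 := by
      cases a.2 <;> simp
    have h2 := abs_add_le (if a.2 then (1 : ℤ) else -1)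
      (u.map (fun a => if a.2 then (1 : ℤ) else -1)).sum
    push_cast
    rw [h1] at h2
    linarith

theorem t_VBD (hT : S_TOT) (hW : S_WPW) (hV : EA.S_EV) : S_VBD := by
  intro V m hm y
  obtain ⟨t1, t2, t3, t4, t5, t6⟩ := hT V m
  have hone : totg m (1 : AR m) = 0 := by
    have := t2 1 1
    rw [mul_one] at this
    linarith
  have hev := (hV V (AR m) inferInstance (gR m)).1
  have hw : ∀ (v : V) (a : ℤ), ev (gR m) (wp v a) = gR m v ^ a := fun v a =>
    (hW V (AR m) inferInstance (gR m) v a).1
  have hwt : ∀ (v : V) (a : ℤ), tot (wp v a) = a := fun v a =>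
    (hW V (AR m) inferInstance (gR m) v a).2.1
  have hTR : ∀ u : W V, TR m u → tot u = 0 := by
    intro u hu
    have h1 := t1 u
    unfold TR at hu
    rw [hu, hone] at h1
    exact h1.symm
  refine ⟨?_, ?_⟩
  · intro v a h
    have h1 := hTR _ h
    rw [t5, hwt] at h1
    have h2 : a = -tot y := by linarith
    rw [h2, abs_neg]
    exact vbd_abs_tot y
  · intro v v' a b h
    have h0 := h
    unfold TR at h0
    rw [hev, hev, hw, hw] at h0
    have h0' : ev (gR m) y = gR m v ^ (-a) * gR m v' ^ (-b) := by
      rw [zpow_neg, zpow_neg]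
      rw [mul_assoc] at h0
      have h3 := mul_eq_one_iff_inv_eq.mp h0
      rw [h3, mul_assoc, mul_inv_cancel, mul_one]
    by_cases hvv : v = v'
    · subst hvv
      refine ⟨a + b, 0, ?_, ?_, ?_⟩
      · have h1 := hTR _ h
        rw [t5, t5, hwt, hwt] at h1
        have h2 : a + b = -tot y := by linarith
        rw [h2, abs_neg]
        exact vbd_abs_tot y
      · rw [abs_zero]
        exact Int.natCast_nonneg _
      · unfold TR
        rw [hev, hev, hw, hw, h0', zpow_zero, mul_one, ← zpow_add, ← zpow_add]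
        have : a + b + (-a + -b) = 0 := by ring
        rw [this, zpow_zero]
    · have h4 := hm.bd v v' (-a) (-b) y hvv h0'
      rw [abs_neg, abs_neg] at h4
      exact ⟨a, b, by linarith [abs_nonneg b], by linarith [abs_nonneg a], h⟩

end Pool.Agent.H231R2.EB
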